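import Pool.Agent.U709.FF.Stm

/-!
Project FF (MP_5273fc_al), packages NIL and CEN (helper913): commutation in nilpotent groups; finite nilpotent
groups in which the `q`-elements commute.
-/

set_option autoImplicit false

namespace Pool.Agent.U913.FF

open Pool.Agent.U709.FF

theorem t_NIL : NIL := by
  intro G _ hG
  refine Group.nilpotent_center_quotient_ind (P := fun G _ _ => ∀ (g a : G) (s t : ℕ),
    s.Coprime t → g ^ s * a = a * g ^ s → g * a ^ t = a ^ t * g → g * a = a * g) G ?_ ?_
  · intro G _ _ g a s t _ _ _
    exact Subsingleton.elim _ _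
  · intro G _ _ ih g a s t hst h1 h2
    have h3 := ih (g : G ⧸ Subgroup.center G) (a : G ⧸ Subgroup.center G) s t hst
      (by rw [← QuotientGroup.mk_pow, ← QuotientGroup.mk_mul, h1, QuotientGroup.mk_mul])
      (by rw [← QuotientGroup.mk_pow, ← QuotientGroup.mk_mul, h2, QuotientGroup.mk_mul])
    rw [← QuotientGroup.mk_mul, ← QuotientGroup.mk_mul, QuotientGroup.eq] at h3
    -- `c = (g a)⁻¹ (a g)` is central
    set c : G := (g * a)⁻¹ * (a * g) with hc
    have hcc : ∀ x, x * c = c * x := fun x => Subgroup.mem_center_iff.1 h3 x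
    have hag : a * g = g * a * c := by rw [hc]; group
    -- `a g^n = g^n a c^n`
    have k1 : ∀ n : ℕ, a * g ^ n = g ^ n * a * c ^ n := by
      intro n
      induction n with
      | zero => simp
      | succ n ih =>
        calc a * g ^ (n + 1) = (a * g ^ n) * g := by rw [pow_succ]; group
          _ = g ^ n * a * c ^ n * g := by rw [ih]
          _ = g ^ n * a * g * c ^ n := by
            have : c ^ n * g = g * c ^ n := ((Commute.pow_right (show Commute g c from hcc g) n).eq).symm
            rw [mul_assoc, this]; group
          _ = g ^ n * (a * g) * c ^ n := by group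
          _ = g ^ (n + 1) * a * c ^ (n + 1) := by
            rw [hag, pow_succ g, pow_succ' c]; simp only [mul_assoc]
    have k2 : ∀ n : ℕ, a ^ n * g = g * a ^ n * c ^ n := by
      intro n
      induction n with
      | zero => simp
      | succ n ih =>
        calc a ^ (n + 1) * g = a ^ n * (a * g) := by rw [pow_succ]; group
          _ = (a ^ n * g) * (a * c) := by rw [hag]; group
          _ = g * a ^ n * c ^ n * (a * c) := by rw [ih]
          _ = g * a ^ n * a * c ^ n * c := by
            have : c ^ n * a = a * c ^ n := ((Commute.pow_right (show Commute a c from hcc a) n).eq).symm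
            calc g * a ^ n * c ^ n * (a * c) = g * a ^ n * (c ^ n * a) * c := by group
              _ = _ := by rw [this]; group
          _ = g * a ^ (n + 1) * c ^ (n + 1) := by
            rw [pow_succ a, pow_succ c]; simp only [mul_assoc]
    have e1 : c ^ s = 1 := by
      have := k1 s
      rw [← h1] at this
      simpa using this.symm
    have e2 : c ^ t = 1 := by
      have := k2 t
      rw [← h2] at this
      simpa using this.symm
    have e3 : c = 1 := by
      have h4 : orderOf c ∣ s := orderOf_dvd_of_pow_eq_one e1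
      have h5 : orderOf c ∣ t := orderOf_dvd_of_pow_eq_one e2
      have h6 : orderOf c ∣ 1 := by
        rw [← hst]; exact Nat.dvd_gcd h4 h5
      exact orderOf_eq_one_iff.1 (Nat.dvd_one.1 h6)
    rw [hag, e3, mul_one]

theorem t_CEN (h : NIL) : CEN := by
  intro N _ _ hN q hq hcomm x hx hdvd
  haveI : Fact q.Prime := ⟨hq⟩
  set s := ordCompl[q] (Nat.card N) with hs
  have hcard : Nat.card N ≠ 0 := Nat.card_pos.ne'
  have hsq : s.Coprime q := (Nat.coprime_ordCompl hq hcard).symm
  -- `g ^ s` is a `q`-element
  have hqel : ∀ g : N, (g ^ s) ^ q ^ ((Nat.card N).factorization q) = 1 := by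
    intro g
    rw [← pow_mul, hs, mul_comm, Nat.ordProj_mul_ordCompl_eq_self]
    exact pow_card_eq_one'
  -- every `q`-element is central
  have hcen : ∀ u : N, (∃ k, u ^ q ^ k = 1) → u ∈ Subgroup.center N := by
    rintro u ⟨k, hk⟩
    rw [Subgroup.mem_center_iff]
    intro g
    refine h N hN g u s (q ^ k) (Nat.Coprime.pow_right k hsq) ?_ ?_
    · exact hcomm _ _ ⟨_, hqel g⟩ ⟨k, hk⟩
    · rw [hk]; simp
  -- `q` does not divide the index of the center
  have hidx : ¬ q ∣ (Subgroup.center N).index := by
    intro hd
    obtain ⟨y, hy⟩ := exists_prime_orderOf_dvd_card' (G := N ⧸ Subgroup.center N) q hd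
    obtain ⟨g, rfl⟩ := QuotientGroup.mk_surjective y
    have hg1 : g ^ q ∈ Subgroup.center N := by
      rw [← QuotientGroup.eq_one_iff, QuotientGroup.mk_pow, ← hy]
      exact pow_orderOf_eq_one _
    have hg2 : g ^ s ∈ Subgroup.center N := hcen _ ⟨_, hqel g⟩
    have hg3 : g ∈ Subgroup.center N := by
      have h1 : orderOf (g : N ⧸ Subgroup.center N) ∣ s := by
        apply orderOf_dvd_of_pow_eq_one
        rw [← QuotientGroup.mk_pow]; exact (QuotientGroup.eq_one_iff _).2 hg2
      rw [hy] at h1
      have h2 : q ∣ 1 := by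
        rw [← hsq]; exact Nat.dvd_gcd h1 dvd_rfl
      exact absurd (Nat.dvd_one.1 h2) hq.one_lt.ne'
    have : (g : N ⧸ Subgroup.center N) = 1 := (QuotientGroup.eq_one_iff g).2 hg3
    rw [this, orderOf_one] at hy
    exact hq.one_lt.ne hy
  -- transfer
  have hx1 : x ^ (Subgroup.center N).index = 1 := by
    have h1 : commutator N ≤ (MonoidHom.transferCenterPow N).ker := by
      rw [commutator_def, Subgroup.commutator_le]
      intro a _ b _
      rw [MonoidHom.mem_ker, map_commutatorElement, commutatorElement_eq_one_iff_mul_comm]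
      apply Subtype.ext
      exact (Subgroup.mem_center_iff.1 ((MonoidHom.transferCenterPow N) b).2 _)
    have h2 := MonoidHom.mem_ker.1 (h1 hx)
    have h3 := congrArg Subtype.val h2
    rw [MonoidHom.transferCenterPow_apply] at h3
    exact h3
  exact hidx (hdvd.trans (orderOf_dvd_of_pow_eq_one hx1))

end Pool.Agent.U913.FF
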